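import Pool.Agent.N290.RI.Stm
import Pool.Agent.N290.RI.Un

/-!
# Project RI (helper290): C4, unitary maps preserve volume (helper767)
-/

set_option autoImplicit false

open Complex MeasureTheory Set Filter Topology
open scoped ENNReal

namespace Pool.Agent.N767.RI

open Pool.Agent.N290.RI

/-- the first column of the inverse -/
noncomputable def inv' (c : ℂ × ℂ) : ℂ × ℂ := (starRingEnd ℂ c.1, -c.2)

theorem N_inv' {c : ℂ × ℂ} (hc : N c = 1) : N (inv' c) = 1 := by
  unfold N inv' at *
  simpa using hc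

theorem cols {c : ℂ × ℂ} (hc : N c = 1) :
    c.1 * starRingEnd ℂ c.1 + c.2 * starRingEnd ℂ c.2 = 1 := by
  rw [cc, cc, ← Complex.ofReal_add]
  unfold N at hc
  rw [hc]; simp

theorem un_inv' {c : ℂ × ℂ} (hc : N c = 1) (ξ : ℂ × ℂ) : un c (un (inv' c) ξ) = ξ := by
  have h := cols hc
  ext
  · simp only [un, inv', map_neg, Complex.conj_conj]
    linear_combination ξ.1 * h
  · simp only [un, inv', map_neg, Complex.conj_conj]
    linear_combination ξ.2 * h

theorem inv'_un {c : ℂ × ℂ} (hc : N c = 1) (ξ : ℂ × ℂ) : un (inv' c) (un c ξ) = ξ := by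
  have h := cols hc
  ext
  · simp only [un, inv', map_neg, Complex.conj_conj]
    linear_combination ξ.1 * h
  · simp only [un, inv', map_neg, Complex.conj_conj]
    linear_combination ξ.2 * h

theorem un_cont (c : ℂ × ℂ) : Continuous (un c) := by
  have h : un c = unL c := by ext x <;> simp [unL_apply]
  rw [h]
  exact (unL c).continuous

/-- the unitary map as a homeomorphism -/
noncomputable def unH {c : ℂ × ℂ} (hc : N c = 1) : (ℂ × ℂ) ≃ₜ (ℂ × ℂ) where
  toFun := un c
  invFun := un (inv' c)
  left_inv := inv'_un hc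
  right_inv := un_inv' hc
  continuous_toFun := un_cont c
  continuous_invFun := un_cont _

/-- the real linear map -/
noncomputable def unR (c : ℂ × ℂ) : (ℂ × ℂ) →ₗ[ℝ] (ℂ × ℂ) :=
  ((unL c).restrictScalars ℝ : (ℂ × ℂ) →L[ℝ] (ℂ × ℂ)).toLinearMap

theorem unR_apply (c ξ : ℂ × ℂ) : unR c ξ = un c ξ := unL_apply c ξ

theorem det_ne {c : ℂ × ℂ} (hc : N c = 1) : LinearMap.det (unR c) ≠ 0 := by
  let e : (ℂ × ℂ) ≃ₗ[ℝ] (ℂ × ℂ) := LinearEquiv.ofLinearMap (unR c) (unR (inv' c))
    (by
      refine LinearMap.ext fun x => ?_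
      show unR c (unR (inv' c) x) = x
      rw [unR_apply, unR_apply, un_inv' hc])
    (by
      refine LinearMap.ext fun x => ?_
      show unR (inv' c) (unR c x) = x
      rw [unR_apply, unR_apply, inv'_un hc])
  have h := (LinearEquiv.isUnit_det' e).ne_zero
  exact h

theorem vol_pos : 0 < volume B := B_open.measure_pos volume ⟨0, by
  rw [mem_B]; simp [N]⟩

theorem vol_lt : volume B < ⊤ := by
  refine lt_of_le_of_lt (measure_mono (t := Metric.ball (0 : ℂ × ℂ) 1) ?_) measure_ball_lt_top
  intro z hz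
  rw [mem_B] at hz
  unfold N at hz
  have h1 := norm_nonneg z.1
  have h2 := norm_nonneg z.2
  have h3 : ‖z.1‖ < 1 := by nlinarith
  have h4 : ‖z.2‖ < 1 := by nlinarith
  rw [mem_ball_zero_iff, Prod.norm_def]
  exact max_lt h3 h4

theorem haar : (volume : Measure (ℂ × ℂ)).IsAddHaarMeasure := by
  rw [Measure.volume_eq_prod]
  infer_instance

theorem map_eq {c : ℂ × ℂ} (hc : N c = 1) : Measure.map (un c) volume = volume := by
  have := haar
  have h1 := Measure.map_linearMap_addHaar_eq_smul_addHaar (volume : Measure (ℂ × ℂ)) (det_ne hc)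
  have h2 : ⇑(unR c) = un c := by
    funext x
    exact unR_apply c x
  rw [h2] at h1
  have h3 : Measure.map (un c) volume B = volume B := by
    rw [Measure.map_apply (un_cont c).measurable B_meas]
    congr 1
    ext x
    exact mem_B_un hc x
  have h4 : ENNReal.ofReal |(LinearMap.det (unR c))⁻¹| * volume B = 1 * volume B := by
    rw [h1, Measure.smul_apply, smul_eq_mul] at h3
    rw [one_mul, h3]
  have h5 : ENNReal.ofReal |(LinearMap.det (unR c))⁻¹| = 1 :=
    (ENNReal.mul_left_inj vol_pos.ne' vol_lt.ne).1 h4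
  rw [h1, h5, one_smul]

/-- **C4** -/
theorem C4_ : C4 := by
  intro c hc
  have h1 : MeasurePreserving (un c) (volume : Measure (ℂ × ℂ)) volume :=
    ⟨(un_cont c).measurable, map_eq hc⟩
  have h2 : MeasurableEmbedding (un c) := (unH hc).measurableEmbedding
  have h3 : un c ⁻¹' B = B := by
    ext x
    exact mem_B_un hc x
  refine ⟨h1, fun F => ?_, fun F => ?_⟩
  · have h4 := h1.setIntegral_preimage_emb h2 F B
    rw [h3] at h4
    exact h4.symm
  · have h4 := h1.setLIntegral_comp_preimage_emb h2 F B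
    rw [h3] at h4
    exact h4.symm

end Pool.Agent.N767.RI
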